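import Pool.Agent.H.MP_e319d1_co.Tri

namespace Pool.Agent.Results.MP_de0ecf_co.Diam

open Pool.Agent.H.MP_e319d1_co

theorem result {B W : Type*} [Group W] (M : CoxeterMatrix B) (cs : CoxeterSystem M W)
    (hsl : ∀ s t, s ≠ t → M s t = 2 ∨ M s t = 3)
    (htf : ¬ ∃ s t u, M s t = 3 ∧ M t u = 3 ∧ M s u = 3) (α : List B) (hα : cs.IsReduced α) :
    (braidGraph M α).Connected ∧ ∃ d : ℕ, (braidGraph M α).ediam = d ∧
      (shadows M α).encard = d ∧
      IsLeast {n : ℕ | ∃ f : Cls M α → Fin n → Bool,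
        ∀ u v, hammingDist (f u) (f v) = (braidGraph M α).dist u v} d := by
  obtain ⟨U, hU, σ, hd, u, v, huv⟩ := lamCox cs hsl htf hα
  have hc := conn (M := M) α
  have huv' : (braidGraph M α).dist u v = U.card := by
    rw [hd, Finset.filter_true_of_mem huv]
  refine ⟨hc, U.card, le_antisymm ?_ ?_, by rw [← hU]; simp, ⟨?_, ?_⟩⟩
  · apply SimpleGraph.ediam_le_of_edist_le
    intro x y
    rw [← (hc.preconnected x y).coe_dist_eq_edist, hd]
    exact_mod_cast Finset.card_filter_le _ _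
  · rw [← huv', (hc.preconnected u v).coe_dist_eq_edist]
    exact SimpleGraph.edist_le_ediam
  · refine ⟨fun x i => σ x (U.equivFin.symm i), fun x y => ?_⟩
    rw [hd, hammingDist]
    refine Finset.card_bij (fun i _ => (U.equivFin.symm i : ℕ)) ?_ ?_ ?_
    · intro i hi
      exact Finset.mem_filter.2 ⟨(U.equivFin.symm i).2, (Finset.mem_filter.1 hi).2⟩
    · intro i _ k _ h
      exact U.equivFin.symm.injective (Subtype.ext h)
    · intro j hj
      obtain ⟨h1, h2⟩ := Finset.mem_filter.1 hj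
      exact ⟨U.equivFin ⟨j, h1⟩, Finset.mem_filter.2 ⟨Finset.mem_univ _, by simpa using h2⟩,
        by simp⟩
  · rintro n ⟨f, hf⟩
    rw [← huv', ← hf]
    simpa using hammingDist_le_card_fintype (x := f u) (y := f v)

end Pool.Agent.Results.MP_de0ecf_co.Diam
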